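import Pool.Agent.Helper85.KPA.StC

/-!
# Project KP (MP_26be5b_ag), module CDN: density of the set where a polynomial does not vanish
-/

set_option autoImplicit false

namespace Pool.Agent.Helper6.KPA

open Pool.Agent.Helper85.KPA Pool.Agent.Helper5.KPA Pool.Agent.Helper52.KP MvPolynomial

theorem hCDN : StCDN := by
  intro m P a b hP ha hb hab z₀
  obtain ⟨z₁, hz₁⟩ : ∃ z₁ : Fin m → ℂ, ev P z₁ ≠ 0 := by
    by_contra hcon
    push Not at hcon
    exact hP (MvPolynomial.funext fun z => by rw [map_zero]; exact hcon z)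
  obtain ⟨p, hp⟩ : ∃ p : Polynomial ℂ, ∀ s : ℂ,
      p.eval s = ev P (fun j => z₀ j + s * (z₁ j - z₀ j)) := by
    refine ⟨MvPolynomial.aeval
      (fun j => Polynomial.C (z₀ j) + Polynomial.X * Polynomial.C (z₁ j - z₀ j)) P, fun s => ?_⟩
    have h : (Polynomial.evalRingHom s).comp
        (MvPolynomial.aeval (R := ℂ)
          (fun j => Polynomial.C (z₀ j) + Polynomial.X * Polynomial.C (z₁ j - z₀ j))).toRingHom =
        (MvPolynomial.eval (fun j => z₀ j + s * (z₁ j - z₀ j))) := by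
      apply MvPolynomial.ringHom_ext
      · intro c
        simp
      · intro j
        simp
    have h2 := congrArg (fun F : MvPolynomial (Fin m) ℂ →+* ℂ => F P) h
    exact h2
  have hp0 : p ≠ 0 := by
    rintro rfl
    have h := hp 1
    rw [Polynomial.eval_zero] at h
    apply hz₁
    rw [h]
    congr 1
    funext j
    ring
  have hfin : {s : ℂ | p.eval s = 0}.Finite := by
    refine (p.roots.toFinset.finite_toSet).subset fun s hs => ?_
    simp only [Finset.mem_coe, Multiset.mem_toFinset]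
    exact (Polynomial.mem_roots hp0).2 hs
  have hd : Dense {s : ℂ | p.eval s = 0}ᶜ := hfin.countable.dense_compl ℂ
  have hc : Continuous fun s : ℂ => (fun j => z₀ j + s * (z₁ j - z₀ j) : Fin m → ℂ) := by
    fun_prop
  have hcl : IsClosed {s : ℂ | a (fun j => z₀ j + s * (z₁ j - z₀ j)) ≤
      b (fun j => z₀ j + s * (z₁ j - z₀ j))} :=
    isClosed_le (ha.comp hc) (hb.comp hc)
  have hsub : {s : ℂ | p.eval s = 0}ᶜ ⊆ {s : ℂ | a (fun j => z₀ j + s * (z₁ j - z₀ j)) ≤
      b (fun j => z₀ j + s * (z₁ j - z₀ j))} := by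
    intro s hs
    refine hab _ ?_
    rw [← hp]
    exact hs
  have hmem : (0 : ℂ) ∈ closure {s : ℂ | p.eval s = 0}ᶜ := hd 0
  have h0 := closure_minimal hsub hcl hmem
  have e : (fun j => z₀ j + (0 : ℂ) * (z₁ j - z₀ j)) = z₀ := by
    funext j
    ring
  have h1 : a (fun j => z₀ j + (0 : ℂ) * (z₁ j - z₀ j)) ≤
      b (fun j => z₀ j + (0 : ℂ) * (z₁ j - z₀ j)) := h0
  rwa [e] at h1

end Pool.Agent.Helper6.KPA
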