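import Pool.Agent.Helper5.KPA.StP

/-!
# Project KP (MP_26be5b_ag), module MNU: comparison of the asymptotics
-/

set_option autoImplicit false

namespace Pool.Agent.Helper6.KPA

open Pool.Agent.Helper5.KPA Pool.Agent.Helper52.KP MvPolynomial Filter Topology

private theorem t_inv : Tendsto (fun j : ℕ => ((j : ℝ))⁻¹) atTop (𝓝 0) :=
  tendsto_inv_atTop_zero.comp tendsto_natCast_atTop_atTop

private theorem t_ratio (q : ℕ) : Tendsto (fun j : ℕ => ((j : ℝ) + q) / j) atTop (𝓝 1) := by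
  have h1 : Tendsto (fun j : ℕ => 1 + (q : ℝ) * ((j : ℝ))⁻¹) atTop (𝓝 (1 + (q : ℝ) * 0)) :=
    tendsto_const_nhds.add (tendsto_const_nhds.mul t_inv)
  rw [mul_zero, add_zero] at h1
  refine h1.congr' ?_
  filter_upwards [eventually_ge_atTop 1] with j hj
  have hj0 : (j : ℝ) ≠ 0 := by positivity
  field_simp

private theorem t_pow (q n : ℕ) :
    Tendsto (fun j : ℕ => ((j : ℝ) + q) ^ n / (j : ℝ) ^ n) atTop (𝓝 1) := by
  have h := (t_ratio q).pow n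
  rw [one_pow] at h
  refine h.congr (fun j => ?_)
  rw [div_pow]

private theorem t_diff (q n : ℕ) :
    Tendsto (fun j : ℕ => (((j : ℝ) + q) ^ (n + 1) - (j : ℝ) ^ (n + 1)) / (j : ℝ) ^ n) atTop
      (𝓝 (((n : ℝ) + 1) * q)) := by
  induction n with
  | zero =>
    simp only [zero_add, pow_one, pow_zero, div_one, Nat.cast_zero, one_mul, add_sub_cancel_left]
    exact tendsto_const_nhds
  | succ n ih =>
    have h := ((t_ratio q).mul ih).add (tendsto_const_nhds (x := (q : ℝ)))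
    have he : (1 : ℝ) * (((n : ℝ) + 1) * q) + q = (((n + 1 : ℕ) : ℝ) + 1) * q := by
      push_cast; ring
    rw [he] at h
    refine h.congr' ?_
    filter_upwards [eventually_ge_atTop 1] with j hj
    have hj0 : (j : ℝ) ≠ 0 := by positivity
    field_simp
    ring

private theorem t_of_bound {f : ℕ → ℝ} {a K : ℝ} (h : ∀ j : ℕ, 1 ≤ j → |f j - a| * j ≤ K) :
    Tendsto f atTop (𝓝 a) := by
  rw [tendsto_iff_norm_sub_tendsto_zero]
  have h1 : Tendsto (fun j : ℕ => K * ((j : ℝ))⁻¹) atTop (𝓝 (K * 0)) :=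
    tendsto_const_nhds.mul t_inv
  rw [mul_zero] at h1
  refine squeeze_zero' (Eventually.of_forall fun j => norm_nonneg _) ?_ h1
  filter_upwards [eventually_ge_atTop 1] with j hj
  have hj0 : (0 : ℝ) < j := by exact_mod_cast hj
  rw [Real.norm_eq_abs, ← div_eq_mul_inv, le_div_iff₀ hj0]
  exact h j hj

theorem hMNU : StMNU := by
  intro m r a₀ b₀ b₁ ℓ κ' D w N hm hr hup hw hN hlo
  obtain ⟨n, rfl⟩ : ∃ n, m = n + 2 := ⟨m - 2, by omega⟩
  have hr0 : (0 : ℝ) < r := by exact_mod_cast hr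
  -- limits
  have hwt : Tendsto (fun j : ℕ => (w j - b₀ * (j : ℝ) ^ (n + 2)) / (j : ℝ) ^ (n + 1)) atTop
      (𝓝 b₁) := by
    obtain ⟨K, hK⟩ := hw
    refine t_of_bound (K := K) (fun j hj => ?_)
    have hj0 : (0 : ℝ) < j := by exact_mod_cast hj
    have h1 := hK j hj
    have e1 : (w j - b₀ * (j : ℝ) ^ (n + 2)) / (j : ℝ) ^ (n + 1) - b₁ =
        (w j - (b₀ * (j : ℝ) ^ (n + 2) + b₁ * (j : ℝ) ^ (n + 1))) / (j : ℝ) ^ (n + 1) := by
      field_simp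
      ring
    have h2 : n + 2 - 1 = n + 1 := rfl
    rw [h2] at h1
    rw [e1, abs_div, abs_of_pos (pow_pos hj0 (n + 1)), div_mul_eq_mul_div,
      div_le_iff₀ (pow_pos hj0 _)]
    have h3 : |w j - (b₀ * (j : ℝ) ^ (n + 2) + b₁ * (j : ℝ) ^ (n + 1))| * (j : ℝ) * (j : ℝ) ≤
        K * (j : ℝ) ^ (n + 1) * (j : ℝ) := by
      calc _ = |w j - (b₀ * (j : ℝ) ^ (n + 2) + b₁ * (j : ℝ) ^ (n + 1))| * (j : ℝ) ^ 2 := by ring
        _ ≤ K * (j : ℝ) ^ (n + 2) := h1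
        _ = _ := by ring
    exact le_of_mul_le_mul_right h3 hj0
  have hNt : Tendsto (fun j : ℕ => N j / (j : ℝ) ^ (n + 1)) atTop (𝓝 a₀) := by
    obtain ⟨K, hK⟩ := hN
    refine t_of_bound (K := K) (fun j hj => ?_)
    have hj0 : (0 : ℝ) < j := by exact_mod_cast hj
    have h1 := hK j hj
    have h2 : n + 2 - 1 = n + 1 := rfl
    rw [h2] at h1
    have e1 : N j / (j : ℝ) ^ (n + 1) - a₀ =
        (N j - a₀ * (j : ℝ) ^ (n + 1)) / (j : ℝ) ^ (n + 1) := by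
      field_simp
    rw [e1, abs_div, abs_of_pos (pow_pos hj0 (n + 1)), div_mul_eq_mul_div,
      div_le_iff₀ (pow_pos hj0 _)]
    exact h1
  -- inequality for fixed `q`
  have key : ∀ q : ℕ, b₁ - r * q * (2 - ℓ) * a₀ + κ' * q ≤
      b₀ * (((n + 1 : ℕ) : ℝ) + 1) * q + (1 - 2 * ((r * q : ℕ) : ℝ)) * (b₁ + a₀) := by
    intro q
    obtain ⟨K, k₁, hk₁⟩ := hup (r * q)
    obtain ⟨k₂, hk₂⟩ := hlo q
    have hL : Tendsto (fun j : ℕ => (w j - b₀ * (j : ℝ) ^ (n + 2)) / (j : ℝ) ^ (n + 1) -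
        (r : ℝ) * q * (2 - ℓ) * (N j / (j : ℝ) ^ (n + 1)) +
        κ' * q * (((j : ℝ) + q) ^ (n + 1) / (j : ℝ) ^ (n + 1))) atTop
        (𝓝 (b₁ - (r : ℝ) * q * (2 - ℓ) * a₀ + κ' * q * 1)) :=
      (hwt.sub (tendsto_const_nhds.mul hNt)).add (tendsto_const_nhds.mul (t_pow q (n + 1)))
    have hR : Tendsto (fun j : ℕ =>
        b₀ * ((((j : ℝ) + q) ^ (n + 1 + 1) - (j : ℝ) ^ (n + 1 + 1)) / (j : ℝ) ^ (n + 1)) +
        (1 - 2 * ((r * q : ℕ) : ℝ)) * (b₁ + a₀) *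
          (((j : ℝ) + q) ^ (n + 1) / (j : ℝ) ^ (n + 1)) +
        K * ((((j : ℝ) + q) ^ n / (j : ℝ) ^ n) * ((j : ℝ))⁻¹)) atTop
        (𝓝 (b₀ * ((((n + 1 : ℕ) : ℝ) + 1) * q) +
          (1 - 2 * ((r * q : ℕ) : ℝ)) * (b₁ + a₀) * 1 + K * (1 * 0))) :=
      ((tendsto_const_nhds.mul (t_diff q (n + 1))).add
        (tendsto_const_nhds.mul (t_pow q (n + 1)))).add
        (tendsto_const_nhds.mul ((t_pow q n).mul t_inv))
    have hle := le_of_tendsto_of_tendsto hL hR (by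
      filter_upwards [eventually_ge_atTop (max 1 (max k₁ k₂))] with j hj
      have hj1 : 1 ≤ j := le_trans (le_max_left _ _) hj
      have hj2 : k₁ ≤ j := le_trans (le_trans (le_max_left _ _) (le_max_right _ _)) hj
      have hj3 : k₂ ≤ j := le_trans (le_trans (le_max_right _ _) (le_max_right _ _)) hj
      have hj0 : (0 : ℝ) < j := by exact_mod_cast hj1
      have h1 := hk₁ (j + q) (by omega)
      have h2 := hk₂ (j + q) (by omega)
      rw [Nat.add_sub_cancel] at h2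
      have h3 := h2.trans h1
      have e2 : n + 2 - 1 = n + 1 := rfl
      have e3 : n + 2 - 2 = n := rfl
      rw [e2, e3] at h3
      push_cast at h3 ⊢
      have e4 : (w j - b₀ * (j : ℝ) ^ (n + 2)) / (j : ℝ) ^ (n + 1) -
          (r : ℝ) * q * (2 - ℓ) * (N j / (j : ℝ) ^ (n + 1)) +
          κ' * q * (((j : ℝ) + q) ^ (n + 1) / (j : ℝ) ^ (n + 1)) =
          (w j - (r : ℝ) * q * (2 - ℓ) * N j + κ' * q * ((j : ℝ) + q) ^ (n + 1) -
            b₀ * (j : ℝ) ^ (n + 2)) / (j : ℝ) ^ (n + 1) := by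
        field_simp
        ring
      have e5 : b₀ * ((((j : ℝ) + q) ^ (n + 1 + 1) - (j : ℝ) ^ (n + 1 + 1)) /
            (j : ℝ) ^ (n + 1)) +
          (1 - 2 * ((r : ℝ) * q)) * (b₁ + a₀) *
            (((j : ℝ) + q) ^ (n + 1) / (j : ℝ) ^ (n + 1)) +
          K * ((((j : ℝ) + q) ^ n / (j : ℝ) ^ n) * ((j : ℝ))⁻¹) =
          (b₀ * ((j : ℝ) + q) ^ (n + 2) +
            (1 - 2 * ((r : ℝ) * q)) * (b₁ + a₀) * ((j : ℝ) + q) ^ (n + 1) +
            K * ((j : ℝ) + q) ^ n - b₀ * (j : ℝ) ^ (n + 2)) / (j : ℝ) ^ (n + 1) := by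
        field_simp
        ring
      rw [e4, e5]
      refine div_le_div_of_nonneg_right ?_ (pow_nonneg hj0.le _)
      linarith)
    linarith
  -- the limit in `q`
  have hX : κ' + 2 * r * b₁ + r * ℓ * a₀ - ((n : ℝ) + 2) * b₀ ≤ 0 := by
    by_contra hcon
    push Not at hcon
    obtain ⟨q, hq⟩ := exists_nat_gt (a₀ / (κ' + 2 * r * b₁ + r * ℓ * a₀ - ((n : ℝ) + 2) * b₀))
    rw [div_lt_iff₀ hcon] at hq
    have h := key q
    push_cast at h
    nlinarith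
  have e : ((n + 2 : ℕ) : ℝ) * b₀ / r - ℓ * a₀ - (2 * b₁ + κ' / r) =
      -(κ' + 2 * r * b₁ + r * ℓ * a₀ - ((n : ℝ) + 2) * b₀) / r := by
    push_cast
    field_simp
    ring
  have h0 : 0 ≤ -(κ' + 2 * r * b₁ + r * ℓ * a₀ - ((n : ℝ) + 2) * b₀) / r :=
    div_nonneg (by linarith) hr0.le
  linarith

end Pool.Agent.Helper6.KPA
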